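import Mathlib

/-!
The norm of `1 - Y` for an almost idempotent operator `Y` (localized to one vector).
-/

namespace Pool.Agent.Lib.EF84

theorem not_lemma {E : Type*} [NormedAddCommGroup E] [InnerProductSpace ℝ E] (Y : E →ₗ[ℝ] E)
    (v : E) (B η : ℝ) (hB : 1 ≤ B) (h0 : 0 ≤ η) (hη : η ≤ 1 / 4)
    (hY : ∀ a b : ℝ, ‖Y (a • v + b • Y v)‖ ≤ B * ‖a • v + b • Y v‖)
    (hI : ‖Y (Y v) - Y v‖ ≤ η * ‖v‖) :
    ‖v - Y v‖ ≤ B * (1 + 4 * Real.sqrt η) * ‖v‖ := by
  set w : E := Y v with hw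
  set u : E := v - w with hu
  set q : ℝ := Real.sqrt η with hq
  have hq0 : 0 ≤ q := Real.sqrt_nonneg _
  have hqq : q * q = η := Real.mul_self_sqrt h0
  have hq2 : q ≤ 1 / 2 := by
    nlinarith
  have hv0 : 0 ≤ ‖v‖ := norm_nonneg v
  have hu0 : 0 ≤ ‖u‖ := norm_nonneg u
  have hw0 : 0 ≤ ‖w‖ := norm_nonneg w
  have hwB : ‖w‖ ≤ B * ‖v‖ := by
    have := hY 1 0
    simpa using this
  -- first case: `u` dominated by `w`
  by_cases c1 : ‖u‖ ≤ q * ‖w‖
  · calc ‖u‖ ≤ q * ‖w‖ := c1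
      _ ≤ q * (B * ‖v‖) := mul_le_mul_of_nonneg_left hwB hq0
      _ ≤ B * (1 + 4 * q) * ‖v‖ := by
        have h1 : 0 ≤ B * ‖v‖ := by positivity
        nlinarith
  push Not at c1
  -- second case: `w` dominated by `u`
  by_cases c2 : ‖w‖ ≤ q * ‖u‖
  · have h1 : ‖u‖ ≤ ‖v‖ + ‖w‖ := norm_sub_le v w
    have h2 : ‖u‖ * (1 - q) ≤ ‖v‖ := by nlinarith
    have h3 : ‖u‖ ≤ (1 + 2 * q) * ‖v‖ := by
      have h4 : 1 ≤ (1 + 2 * q) * (1 - q) := by nlinarith
      have h5 : 0 < 1 - q := by linarith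
      calc ‖u‖ = ‖u‖ * 1 := by ring
        _ ≤ ‖u‖ * ((1 + 2 * q) * (1 - q)) := mul_le_mul_of_nonneg_left h4 hu0
        _ = (1 + 2 * q) * (‖u‖ * (1 - q)) := by ring
        _ ≤ (1 + 2 * q) * ‖v‖ := mul_le_mul_of_nonneg_left h2 (by positivity)
    calc ‖u‖ ≤ (1 + 2 * q) * ‖v‖ := h3
      _ ≤ B * (1 + 4 * q) * ‖v‖ := by
        have h6 : (1 + 2 * q) ≤ B * (1 + 4 * q) := by nlinarith
        exact mul_le_mul_of_nonneg_right h6 hv0
  push Not at c2
  have hwpos : 0 < ‖w‖ := by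
    by_contra h
    have : ‖w‖ = 0 := le_antisymm (not_lt.1 h) hw0
    rw [this] at c2
    have : 0 ≤ q * ‖u‖ := by positivity
    linarith
  have hupos : 0 < ‖u‖ := lt_of_le_of_lt (by positivity) c1
  set α : ℝ := ‖u‖ / ‖w‖ with hα
  have hαpos : 0 < α := div_pos hupos hwpos
  have hαw : α * ‖w‖ = ‖u‖ := by rw [hα]; field_simp
  have hαu : ‖u‖ / α = ‖w‖ := by rw [hα]; field_simp
  have hα1 : q ≤ α := by
    rw [hα, le_div_iff₀ hwpos]; exact c1.le
  have hα2 : q * α ≤ 1 := by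
    rw [hα, mul_div_assoc', div_le_one hwpos]; exact c2.le
  -- the rescaled vector
  have hvec : (1 / α) • v + (α - 1 / α) • Y v = α • w + (1 / α) • u := by
    rw [← hw, hu, smul_sub, sub_smul]; abel
  have hnorm : ‖α • w + (1 / α) • u‖ = ‖v‖ := by
    have h1 : ‖α • w + (1 / α) • u‖ ^ 2 = ‖v‖ ^ 2 := by
      have e1 : v = w + u := by rw [hu]; abel
      rw [e1, norm_add_sq_real, norm_add_sq_real, norm_smul, norm_smul, inner_smul_left,
        inner_smul_right]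
      rw [Real.norm_of_nonneg hαpos.le, Real.norm_of_nonneg (by positivity : (0 : ℝ) ≤ 1 / α)]
      have e2 : (1 / α) * ‖u‖ = ‖w‖ := by rw [← hαu]; ring
      rw [hαw, e2]
      simp only [conj_trivial]
      have e3 : α * (1 / α * inner ℝ w u) = inner ℝ w u := by field_simp
      rw [e3]
      ring
    have h2 := (sq_eq_sq₀ (norm_nonneg _) (norm_nonneg _)).1 h1
    exact h2
  have hb := hY (1 / α) (α - 1 / α)
  rw [hvec, hnorm] at hb
  have hYv : Y (α • w + (1 / α) • u) = α • w + (α - 1 / α) • (Y (Y v) - Y v) := by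
    rw [hu, map_add, map_smul, map_smul, map_sub, ← hw, sub_smul, smul_sub, smul_sub, smul_sub]
    abel
  rw [hYv] at hb
  have h3 : ‖α • w‖ ≤ B * ‖v‖ + |α - 1 / α| * (η * ‖v‖) := by
    have h4 : α • w = (α • w + (α - 1 / α) • (Y (Y v) - Y v)) - (α - 1 / α) • (Y (Y v) - Y v) := by
      abel
    rw [h4]
    refine (norm_sub_le _ _).trans (add_le_add hb ?_)
    rw [norm_smul, Real.norm_eq_abs]
    exact mul_le_mul_of_nonneg_left hI (abs_nonneg _)
  rw [norm_smul, Real.norm_of_nonneg hαpos.le, hαw] at h3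
  have h5 : |α - 1 / α| * η ≤ 2 * q := by
    have h6 : |α - 1 / α| ≤ α + 1 / α := by
      rw [abs_le]
      have : 0 < 1 / α := by positivity
      constructor <;> linarith
    have h7 : (α + 1 / α) * η ≤ 2 * q := by
      have h8 : α * η ≤ q := by
        rw [← hqq]; nlinarith
      have h9 : 1 / α * η ≤ q := by
        rw [one_div, inv_mul_eq_div, div_le_iff₀ hαpos, ← hqq]
        exact mul_le_mul_of_nonneg_left hα1 hq0
      nlinarith
    exact (mul_le_mul_of_nonneg_right h6 h0).trans h7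
  calc ‖u‖ ≤ B * ‖v‖ + |α - 1 / α| * (η * ‖v‖) := h3
    _ = B * ‖v‖ + (|α - 1 / α| * η) * ‖v‖ := by ring
    _ ≤ B * ‖v‖ + (2 * q) * ‖v‖ := by
      have := mul_le_mul_of_nonneg_right h5 hv0
      linarith
    _ ≤ B * (1 + 4 * q) * ‖v‖ := by
      have h10 : 0 ≤ q * ‖v‖ := by positivity
      nlinarith

end Pool.Agent.Lib.EF84
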