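import Mathlib

/-!
Tail bounds for a uniformly random map `κ : V' → V`: the number of edges of a graph on `V'` whose
two ends are mapped to a prescribed set of pairs, and the number of vertices mapped to a set.
Everything is written as an inequality between numbers of maps.
-/

namespace Pool.Agent.Lib.EF84

open Finset

variable {V V' E' : Type*} [Fintype V] [DecidableEq V] [Fintype V'] [DecidableEq V'] [Fintype E']
  [DecidableEq E']

/-- Restriction of maps to an injectively embedded set of coordinates: the number of maps whose
restriction satisfies a property. -/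
theorem card_restrict {I : Type*} [Fintype I] [DecidableEq I] (f : I → V')
    (hf : Function.Injective f) (P : (I → V) → Prop) [DecidablePred P] :
    #{κ : V' → V | P (κ ∘ f)} * (Fintype.card V) ^ (Fintype.card I) =
      #{g : I → V | P g} * (Fintype.card V) ^ (Fintype.card V') := by
  classical
  -- `V' ≃ I ⊕ rest`
  let R := {v : V' // v ∉ Set.range f}
  let e : I ⊕ R ≃ V' :=
    (Equiv.sumCongr (Equiv.ofInjective f hf) (Equiv.refl _)).trans (Equiv.Set.sumCompl (Set.range f))
  have he : ∀ i, e (Sum.inl i) = f i := by
    intro i
    show (Equiv.Set.sumCompl (Set.range f)) (Sum.inl (Equiv.ofInjective f hf i)) = f i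
    rw [Equiv.Set.sumCompl_apply_inl]
    rfl
  let E : (V' → V) ≃ (I → V) × (R → V) :=
    (Equiv.arrowCongr e.symm (Equiv.refl V)).trans (Equiv.sumArrowEquivProdArrow I R V)
  have hE : ∀ κ, (E κ).1 = κ ∘ f := by
    intro κ
    funext i
    simp [E, he]
  have h1 : #{κ : V' → V | P (κ ∘ f)} = #(({g : I → V | P g} : Finset _) ×ˢ
      (Finset.univ : Finset (R → V))) := by
    refine Finset.card_bij (fun κ _ => E κ) ?_ ?_ ?_
    · intro κ hκ
      simp only [mem_filter, mem_univ, true_and] at hκ
      simp only [mem_product, mem_filter, mem_univ, true_and, and_true, hE]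
      exact hκ
    · intro a _ b _ hab
      exact E.injective hab
    · intro b hb
      simp only [mem_product, mem_filter, mem_univ, true_and, and_true] at hb
      refine ⟨E.symm b, ?_, by simp⟩
      simp only [mem_filter, mem_univ, true_and]
      rw [← hE, Equiv.apply_symm_apply]
      exact hb
  have h2 : Fintype.card V' = Fintype.card I + Fintype.card R := by
    rw [← Fintype.card_sum]
    exact Fintype.card_congr e.symm
  rw [h1, card_product, h2, pow_add]
  simp only [card_univ, Fintype.card_fun]
  ring

/-- The number of maps sending `q` disjoint pairs to prescribed pairs. -/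
theorem card_pairs {q : ℕ} (a b : Fin q → V') (hab : Function.Injective (Sum.elim a b))
    (P : Finset (V × V)) :
    #{κ : V' → V | ∀ i, (κ (a i), κ (b i)) ∈ P} * (Fintype.card V) ^ (2 * q) =
      #P ^ q * (Fintype.card V) ^ (Fintype.card V') := by
  classical
  have h := card_restrict (V := V) (Sum.elim a b) hab
    (fun g : Fin q ⊕ Fin q → V => ∀ i, (g (Sum.inl i), g (Sum.inr i)) ∈ P)
  have h1 : Fintype.card (Fin q ⊕ Fin q) = 2 * q := by
    simp [two_mul]
  have h2 : #{g : Fin q ⊕ Fin q → V | ∀ i, (g (Sum.inl i), g (Sum.inr i)) ∈ P} = #P ^ q := by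
    have h3 : #{g : Fin q ⊕ Fin q → V | ∀ i, (g (Sum.inl i), g (Sum.inr i)) ∈ P} =
        #(Fintype.piFinset (fun _ : Fin q => P)) := by
      refine Finset.card_bij (fun g _ => fun i => (g (Sum.inl i), g (Sum.inr i))) ?_ ?_ ?_
      · intro g hg
        simp only [mem_filter, mem_univ, true_and] at hg
        simp only [Fintype.mem_piFinset]
        exact hg
      · intro g _ g' _ hgg
        funext x
        rcases x with i | i
        · exact congrArg Prod.fst (congrFun hgg i)
        · exact congrArg Prod.snd (congrFun hgg i)
      · intro p hp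
        simp only [Fintype.mem_piFinset] at hp
        refine ⟨Sum.elim (fun i => (p i).1) (fun i => (p i).2), ?_, ?_⟩
        · simp only [mem_filter, mem_univ, true_and, Sum.elim_inl, Sum.elim_inr]
          exact hp
        · funext i
          simp
    rw [h3, Fintype.card_piFinset_const]
  simp only [Function.comp_apply, Sum.elim_inl, Sum.elim_inr] at h
  rw [h1, h2] at h
  exact h

/-- The number of maps sending `q` distinct vertices to a set. -/
theorem card_points {q : ℕ} (a : Fin q → V') (ha : Function.Injective a) (W : Finset V) :
    #{κ : V' → V | ∀ i, κ (a i) ∈ W} * (Fintype.card V) ^ q =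
      #W ^ q * (Fintype.card V) ^ (Fintype.card V') := by
  classical
  have h := card_restrict (V := V) a ha (fun g : Fin q → V => ∀ i, g i ∈ W)
  have h2 : #{g : Fin q → V | ∀ i, g i ∈ W} = #W ^ q := by
    have h3 : ({g : Fin q → V | ∀ i, g i ∈ W} : Finset _) =
        Fintype.piFinset (fun _ : Fin q => W) := by
      ext g; simp [Fintype.mem_piFinset]
    rw [h3, Fintype.card_piFinset_const]
  simp only [Function.comp_apply] at h
  rw [Fintype.card_fin, h2] at h
  exact h

/-- A set of at least `2 D q` edges of a loopless graph of maximum degree `D` contains a matching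
of size `q`. -/
theorem exists_matching (src tgt : E' → V') (hne : ∀ e, src e ≠ tgt e) (D : ℕ) (hD0 : 0 < D)
    (hD : ∀ v, #{e : E' | src e = v ∨ tgt e = v} ≤ D) (q : ℕ) (S : Finset E')
    (hS : 2 * D * q ≤ #S) :
    ∃ m : Fin q → E', (∀ i, m i ∈ S) ∧
      Function.Injective (Sum.elim (fun i => src (m i)) (fun i => tgt (m i))) := by
  classical
  induction q generalizing S with
  | zero =>
    refine ⟨Fin.elim0, fun i => i.elim0, ?_⟩
    intro x
    rcases x with i | i <;> exact i.elim0
  | succ q ih =>
    have hpos : 0 < #S := by
      have : 0 < 2 * D * (q + 1) := by positivity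
      omega
    obtain ⟨e, he⟩ := card_pos.1 hpos
    -- remove all edges meeting `e`
    let B : Finset E' := Finset.univ.filter (fun x : E' => src x = src e ∨ tgt x = src e) ∪
      Finset.univ.filter (fun x : E' => src x = tgt e ∨ tgt x = tgt e)
    have hB : #B ≤ 2 * D := by
      refine (card_union_le _ _).trans ?_
      have h1 := hD (src e)
      have h2 := hD (tgt e)
      omega
    have hS' : 2 * D * q ≤ #(S \ B) := by
      have h3 := Finset.le_card_sdiff B S
      have h4 : 2 * D * (q + 1) = 2 * D * q + 2 * D := by ring
      omega
    obtain ⟨m, hm1, hm2⟩ := ih (S \ B) hS'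
    have hnot : ∀ i, src (m i) ≠ src e ∧ tgt (m i) ≠ src e ∧ src (m i) ≠ tgt e ∧
        tgt (m i) ≠ tgt e := by
      intro i
      have h5 := (mem_sdiff.1 (hm1 i)).2
      simp only [B, mem_union, mem_filter, mem_univ, true_and, not_or] at h5
      exact ⟨h5.1.1, h5.1.2, h5.2.1, h5.2.2⟩
    refine ⟨Fin.cons e m, ?_, ?_⟩
    · intro i
      refine Fin.cases ?_ (fun j => ?_) i
      · simpa using he
      · simpa using (mem_sdiff.1 (hm1 j)).1
    · intro x y hxy
      have hm2' : ∀ a b : Fin q ⊕ Fin q,
          Sum.elim (fun i => src (m i)) (fun i => tgt (m i)) a =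
          Sum.elim (fun i => src (m i)) (fun i => tgt (m i)) b → a = b := fun a b h => hm2 h
      rcases x with i | i <;> rcases y with j | j
      · simp only [Sum.elim_inl] at hxy
        revert hxy
        refine Fin.cases ?_ (fun i' => ?_) i <;> refine Fin.cases ?_ (fun j' => ?_) j
        · intro _; rfl
        · intro h
          simp only [Fin.cons_zero, Fin.cons_succ] at h
          exact absurd h.symm (hnot j').1
        · intro h
          simp only [Fin.cons_zero, Fin.cons_succ] at h
          exact absurd h (hnot i').1
        · intro h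
          simp only [Fin.cons_succ] at h
          have := hm2' (Sum.inl i') (Sum.inl j') (by simpa using h)
          have := Sum.inl.inj this
          rw [this]
      · simp only [Sum.elim_inl, Sum.elim_inr] at hxy
        revert hxy
        refine Fin.cases ?_ (fun i' => ?_) i <;> refine Fin.cases ?_ (fun j' => ?_) j
        · intro h
          simp only [Fin.cons_zero] at h
          exact absurd h (hne e)
        · intro h
          simp only [Fin.cons_zero, Fin.cons_succ] at h
          exact absurd h.symm (hnot j').2.1
        · intro h
          simp only [Fin.cons_zero, Fin.cons_succ] at h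
          exact absurd h (hnot i').2.2.1
        · intro h
          simp only [Fin.cons_succ] at h
          exact absurd (hm2' (Sum.inl i') (Sum.inr j') (by simpa using h)) (by simp)
      · simp only [Sum.elim_inl, Sum.elim_inr] at hxy
        revert hxy
        refine Fin.cases ?_ (fun i' => ?_) i <;> refine Fin.cases ?_ (fun j' => ?_) j
        · intro h
          simp only [Fin.cons_zero] at h
          exact absurd h.symm (hne e)
        · intro h
          simp only [Fin.cons_zero, Fin.cons_succ] at h
          exact absurd h.symm (hnot j').2.2.1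
        · intro h
          simp only [Fin.cons_zero, Fin.cons_succ] at h
          exact absurd h (hnot i').2.1
        · intro h
          simp only [Fin.cons_succ] at h
          exact absurd (hm2' (Sum.inr i') (Sum.inl j') (by simpa using h)) (by simp)
      · simp only [Sum.elim_inr] at hxy
        revert hxy
        refine Fin.cases ?_ (fun i' => ?_) i <;> refine Fin.cases ?_ (fun j' => ?_) j
        · intro _; rfl
        · intro h
          simp only [Fin.cons_zero, Fin.cons_succ] at h
          exact absurd h.symm (hnot j').2.2.2
        · intro h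
          simp only [Fin.cons_zero, Fin.cons_succ] at h
          exact absurd h (hnot i').2.2.2
        · intro h
          simp only [Fin.cons_succ] at h
          have := hm2' (Sum.inr i') (Sum.inr j') (by simpa using h)
          have := Sum.inr.inj this
          rw [this]

/-- **Tail bound for edges.** For a loopless graph of maximum degree `D` on `V'` and a set `P` of
pairs of points of `V`: the number of maps `κ : V' → V` for which at least `2 D q` edges are mapped
into `P`. -/
theorem tail_edges (src tgt : E' → V') (hne : ∀ e, src e ≠ tgt e) (D : ℕ) (hD0 : 0 < D)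
    (hD : ∀ v, #{e : E' | src e = v ∨ tgt e = v} ≤ D) (q : ℕ) (P : Finset (V × V)) :
    #{κ : V' → V | 2 * D * q ≤ #{e : E' | (κ (src e), κ (tgt e)) ∈ P}} *
      (Fintype.card V) ^ (2 * q) ≤
      (Fintype.card E' * #P) ^ q * (Fintype.card V) ^ (Fintype.card V') := by
  classical
  let T : (Fin q → E') → Finset (V' → V) := fun m =>
    if Function.Injective (Sum.elim (fun i => src (m i)) (fun i => tgt (m i))) then
      Finset.univ.filter (fun κ : V' → V => ∀ i, (κ (src (m i)), κ (tgt (m i))) ∈ P) else ∅
  have hsub : ({κ : V' → V | 2 * D * q ≤ #{e : E' | (κ (src e), κ (tgt e)) ∈ P}} : Finset _) ⊆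
      (Finset.univ : Finset (Fin q → E')).biUnion T := by
    intro κ hκ
    simp only [mem_filter, mem_univ, true_and] at hκ
    obtain ⟨m, hm1, hm2⟩ := exists_matching src tgt hne D hD0 hD q _ hκ
    refine mem_biUnion.2 ⟨m, mem_univ _, ?_⟩
    simp only [T, if_pos hm2, mem_filter, mem_univ, true_and]
    intro i
    have := hm1 i
    simpa using this
  have hT : ∀ m, #(T m) * (Fintype.card V) ^ (2 * q) ≤
      #P ^ q * (Fintype.card V) ^ (Fintype.card V') := by
    intro m
    by_cases h : Function.Injective (Sum.elim (fun i => src (m i)) (fun i => tgt (m i)))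
    · simp only [T, if_pos h]
      exact (card_pairs _ _ h P).le
    · simp only [T, if_neg h]
      simp
  calc #{κ : V' → V | 2 * D * q ≤ #{e : E' | (κ (src e), κ (tgt e)) ∈ P}} *
        (Fintype.card V) ^ (2 * q)
      ≤ (∑ m : Fin q → E', #(T m)) * (Fintype.card V) ^ (2 * q) := by
        refine Nat.mul_le_mul_right _ ?_
        exact (card_le_card hsub).trans card_biUnion_le
    _ = ∑ m : Fin q → E', #(T m) * (Fintype.card V) ^ (2 * q) := by rw [sum_mul]
    _ ≤ ∑ _m : Fin q → E', #P ^ q * (Fintype.card V) ^ (Fintype.card V') :=
        sum_le_sum fun m _ => hT m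
    _ = (Fintype.card E' * #P) ^ q * (Fintype.card V) ^ (Fintype.card V') := by
        rw [sum_const, card_univ, Fintype.card_fun, Fintype.card_fin, smul_eq_mul, mul_pow]
        ring

/-- **Tail bound for vertices.** The number of maps `κ : V' → V` for which at least `q` points are
mapped into `W`. -/
theorem tail_points (q : ℕ) (W : Finset V) :
    #{κ : V' → V | q ≤ #{v : V' | κ v ∈ W}} * (Fintype.card V) ^ q ≤
      (Fintype.card V' * #W) ^ q * (Fintype.card V) ^ (Fintype.card V') := by
  classical
  let T : (Fin q → V') → Finset (V' → V) := fun m =>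
    if Function.Injective m then Finset.univ.filter (fun κ : V' → V => ∀ i, κ (m i) ∈ W) else ∅
  have hsub : ({κ : V' → V | q ≤ #{v : V' | κ v ∈ W}} : Finset _) ⊆
      (Finset.univ : Finset (Fin q → V')).biUnion T := by
    intro κ hκ
    simp only [mem_filter, mem_univ, true_and] at hκ
    obtain ⟨A, hA, hAc⟩ := exists_subset_card_eq hκ
    let m : Fin q → V' := fun i => (A.equivFinOfCardEq hAc).symm i
    have hm : Function.Injective m := by
      intro i j hij
      exact (A.equivFinOfCardEq hAc).symm.injective (Subtype.ext hij)
    refine mem_biUnion.2 ⟨m, mem_univ _, ?_⟩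
    simp only [T, if_pos hm, mem_filter, mem_univ, true_and]
    intro i
    have h1 : m i ∈ A := ((A.equivFinOfCardEq hAc).symm i).2
    have := hA h1
    simpa using this
  have hT : ∀ m, #(T m) * (Fintype.card V) ^ q ≤
      #W ^ q * (Fintype.card V) ^ (Fintype.card V') := by
    intro m
    by_cases h : Function.Injective m
    · simp only [T, if_pos h]
      exact (card_points _ h W).le
    · simp only [T, if_neg h]
      simp
  calc #{κ : V' → V | q ≤ #{v : V' | κ v ∈ W}} * (Fintype.card V) ^ q
      ≤ (∑ m : Fin q → V', #(T m)) * (Fintype.card V) ^ q := by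
        refine Nat.mul_le_mul_right _ ?_
        exact (card_le_card hsub).trans card_biUnion_le
    _ = ∑ m : Fin q → V', #(T m) * (Fintype.card V) ^ q := by rw [sum_mul]
    _ ≤ ∑ _m : Fin q → V', #W ^ q * (Fintype.card V) ^ (Fintype.card V') :=
        sum_le_sum fun m _ => hT m
    _ = (Fintype.card V' * #W) ^ q * (Fintype.card V) ^ (Fintype.card V') := by
        rw [sum_const, card_univ, Fintype.card_fun, Fintype.card_fin, smul_eq_mul, mul_pow]
        ring

end Pool.Agent.Lib.EF84
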